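import Mathlib
import Pool.Agent.W528.Odd.Stms2

/-!
# BOUND: the dimension is at most twice the number of elements of a complete frame of odd rank
-/

set_option linter.unusedSectionVars false
set_option autoImplicit false

namespace Pool.Agent.W72.OT.Bound

open Module Pool.Agent.W528.Odd

/-! ### Abstract ring lemmas -/

section ring

variable {R : Type} [Ring R]

theorem abs1 {P P' Q Q' a : R} (h1 : P * P = P) (h2 : P' * P' = P') (h3 : P * P' = 0)
    (h4 : P' * P = 0) (h5 : Q * Q = Q) (h6 : Q' * Q' = Q') (h7 : Q * Q' = 0) (h8 : Q' * Q = 0) :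
    P * (P * a * Q' + P' * a * Q) * Q' + P' * (P * a * Q' + P' * a * Q) * Q =
      P * a * Q' + P' * a * Q := by
  have : P * (P * a * Q' + P' * a * Q) * Q' + P' * (P * a * Q' + P' * a * Q) * Q =
      (P * P) * a * (Q' * Q') + (P * P') * a * (Q * Q') + (P' * P) * a * (Q' * Q)
        + (P' * P') * a * (Q * Q) := by noncomm_ring
  rw [this, h1, h2, h3, h4, h5, h6, h7, h8]
  simp

theorem abs2 {P P' Q Q' a : R} (h1 : P * P = P) (h3 : P * P' = 0)
    (h6 : Q' * Q' = Q') (h7 : Q * Q' = 0) :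
    P * (P * a * Q' + P' * a * Q) * Q' = P * a * Q' := by
  have : P * (P * a * Q' + P' * a * Q) * Q' =
      (P * P) * a * (Q' * Q') + (P * P') * a * (Q * Q') := by noncomm_ring
  rw [this, h1, h3, h6, h7]
  simp

end ring

noncomputable section

variable {K : Type} [Field K] [CharZero K] {V : Type} [AddCommGroup V] [Module K V]
  [FiniteDimensional K V]
variable {𝔥 : Submodule K (Module.End K V)} {p : Module.End K V}

/-- two orthogonal pairs -/
structure Two (𝔥 : Submodule K (Module.End K V)) (p E F E' F' : Module.End K V) : Prop where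
  h : Pr 𝔥 p E F
  h' : Pr 𝔥 p E' F'
  o1 : E * F' = 0
  o2 : E' * F = 0
  o3 : F * E' = 0
  o4 : F' * E = 0

variable {E F E' F' : Module.End K V}

theorem Two.symm (t : Two 𝔥 p E F E' F') : Two 𝔥 p E' F' E F :=
  ⟨t.h', t.h, t.o2, t.o1, t.o4, t.o3⟩

theorem Two.swap (t : Two 𝔥 p E F E' F') : Two 𝔥 (1 - p) F E F' E' :=
  ⟨t.h.swap, t.h'.swap, t.o3, t.o4, t.o1, t.o2⟩

theorem Two.PP (t : Two 𝔥 p E F E' F') : E * F * (E' * F') = 0 := by
  have : E * F * (E' * F') = E * (F * E') * F' := by noncomm_ring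
  rw [this, t.o3, mul_zero, zero_mul]

theorem Two.QQ (t : Two 𝔥 p E F E' F') : F * E * (F' * E') = 0 := t.swap.PP

/-- `P a Q' + P' a Q` -/
def off (E F E' F' a : Module.End K V) : Module.End K V :=
  E * F * a * (F' * E') + E' * F' * a * (F * E)

theorem Two.off_mem (t : Two 𝔥 p E F E' F') (hbr : ∀ X ∈ 𝔥, ∀ Y ∈ 𝔥, X * Y - Y * X ∈ 𝔥)
    {a : Module.End K V} (ha : a ∈ AA 𝔥 p) : off E F E' F' a ∈ AA 𝔥 p := by
  have h1 := t.h'.L_mem hbr (t.h.L_mem hbr ha)
  have h2 : E' * F' * (E * F * a + a * (F * E)) + (E * F * a + a * (F * E)) * (F' * E') =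
      off E F E' F' a + E' * (F' * E) * F * a + a * F * (E * F') * E' := by
    unfold off
    noncomm_ring
  rw [h2, t.o4, t.o1] at h1
  simpa using h1

theorem Two.off_off (t : Two 𝔥 p E F E' F') (a : Module.End K V) :
    off E F E' F' (off E F E' F' a) = off E F E' F' a :=
  abs1 t.h.idem t.h'.idem t.PP t.symm.PP t.h.idem' t.h'.idem' t.QQ t.symm.QQ

theorem Two.P_off (t : Two 𝔥 p E F E' F') (a : Module.End K V) :
    E * F * off E F E' F' a * (F' * E') = E * F * a * (F' * E') :=
  abs2 t.h.idem t.PP t.h'.idem' t.QQ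

theorem off_symm (a : Module.End K V) : off E F E' F' a = off E' F' E F a := by
  unfold off
  exact add_comm _ _

/-- the diagonal component of an element of degree one -/
theorem diag (hbr : ∀ X ∈ 𝔥, ∀ Y ∈ 𝔥, X * Y - Y * X ∈ 𝔥) (h : Pr 𝔥 p E F)
    (hext : ∀ x ∈ 𝔥, ∃ c : K, E * x * E = c • E) {a : Module.End K V} (ha : a ∈ AA 𝔥 p) :
    ∃ c : K, E * F * a * (F * E) = c • E := by
  have h1 : F * a * F ∈ 𝔥 := sq_mul_mem hbr h.fA.1 (AA_mul h.fA h.fA) ha.1
  obtain ⟨c, hc⟩ := hext _ h1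
  refine ⟨c, ?_⟩
  rw [← hc]
  noncomm_ring

/-- the diagonal component of an element of degree minus one -/
theorem diag' (h : Pr 𝔥 p E F)
    (hext : ∀ x ∈ 𝔥, ∃ c : K, E * x * E = c • E) {b : Module.End K V} (hb : b ∈ AA 𝔥 (1 - p)) :
    ∃ c : K, F * E * b * (E * F) = c • F := by
  obtain ⟨c, hc⟩ := hext _ hb.1
  refine ⟨c, ?_⟩
  have h1 : F * E * b * (E * F) = F * (E * b * E) * F := by noncomm_ring
  rw [h1, hc, mul_smul_comm, smul_mul_assoc, h.fef]

/-- sandwich -/
theorem sand (hbr : ∀ X ∈ 𝔥, ∀ Y ∈ 𝔥, X * Y - Y * X ∈ 𝔥) {a b : Module.End K V}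
    (ha : a ∈ AA 𝔥 p) (hb : b ∈ 𝔥) : a * b * a ∈ AA 𝔥 p := by
  refine ⟨sq_mul_mem hbr ha.1 (AA_mul ha ha) hb, ?_, ?_⟩
  · rw [← mul_assoc, ← mul_assoc, ha.2.1]
  · rw [mul_assoc, ha.2.2, mul_zero]

/-- (3) -/
theorem Two.quad (t : Two 𝔥 p E F E' F') (hbr : ∀ X ∈ 𝔥, ∀ Y ∈ 𝔥, X * Y - Y * X ∈ 𝔥)
    (hext' : ∀ x ∈ 𝔥, ∃ c : K, E' * x * E' = c • E') {a : Module.End K V} (ha : a ∈ AA 𝔥 p)
    (hoff : off E F E' F' a = a) : ∃ c : K, a * F * a = c • E' := by
  have h1 : a * F * a ∈ AA 𝔥 p := sand hbr ha t.h.fA.1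
  obtain ⟨c, hc⟩ := diag hbr t.h' hext' h1
  refine ⟨c, ?_⟩
  rw [← hc]
  have h2 : a * F = E' * F' * a * F := by
    have h3 : off E F E' F' a * F = E * F * a * F' * (E' * F) + E' * F' * a * (F * E * F) := by
      unfold off
      noncomm_ring
    rw [hoff, t.o2, mul_zero, zero_add, t.h.fef] at h3
    exact h3
  have h4 : F * a = F * a * (F' * E') := by
    have h3 : F * off E F E' F' a = (F * E * F) * a * (F' * E') + (F * E') * F' * a * (F * E) := by
      unfold off
      noncomm_ring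
    rw [hoff, t.o3, zero_mul, zero_mul, zero_mul, add_zero, t.h.fef] at h3
    exact h3
  calc a * F * a = (a * F) * a := rfl
    _ = (E' * F' * a * F) * a := by rw [← h2]
    _ = E' * F' * a * (F * a) := by noncomm_ring
    _ = E' * F' * a * (F * a * (F' * E')) := by rw [← h4]
    _ = E' * F' * (a * F * a) * (F' * E') := by noncomm_ring

/-- the polarised form of (3) -/
theorem Two.quad2 (t : Two 𝔥 p E F E' F') (hbr : ∀ X ∈ 𝔥, ∀ Y ∈ 𝔥, X * Y - Y * X ∈ 𝔥)
    (hext' : ∀ x ∈ 𝔥, ∃ c : K, E' * x * E' = c • E') {a b : Module.End K V} (ha : a ∈ AA 𝔥 p)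
    (hb : b ∈ AA 𝔥 p) (hoff : off E F E' F' a = a) (hoff' : off E F E' F' b = b) :
    ∃ c : K, a * F * b + b * F * a = c • E' := by
  obtain ⟨c1, h1⟩ := t.quad hbr hext' ha hoff
  obtain ⟨c2, h2⟩ := t.quad hbr hext' hb hoff'
  have hab : off E F E' F' (a + b) = a + b := by
    have : off E F E' F' (a + b) = off E F E' F' a + off E F E' F' b := by
      unfold off
      noncomm_ring
    rw [this, hoff, hoff']
  obtain ⟨c3, h3⟩ := t.quad hbr hext' ((AA 𝔥 p).add_mem ha hb) hab
  refine ⟨c3 - c1 - c2, ?_⟩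
  rw [sub_smul, sub_smul, ← h1, ← h2, ← h3]
  noncomm_ring

/-- (4) -/
theorem Two.zero (t : Two 𝔥 p E F E' F') (ω : V →ₗ[K] V →ₗ[K] K) (hω : ∀ v, ω v v = 0)
    (hnd : ∀ u, (∀ v, ω u v = 0) → u = 0) (hHalf : Half)
    (hsk : ∀ y ∈ 𝔥, ∀ a b, ω (y a) b + ω a (y b) = 0) {s : ℕ} (hs : Odd s) (hrk : rk E = s)
    (hmin : ∀ a ∈ AA 𝔥 p, a ≠ 0 → s ≤ rk a) {c : Module.End K V} (hc : c ∈ AA 𝔥 p)
    (hoff : off E F E' F' c = c) (h0 : c * F * c = 0) : c = 0 := by
  by_contra hne
  have e1 : E * F * c + c * F * E = c := by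
    have h1 : E * F * c = E * F * c * (F' * E') := by
      have h3 : E * F * off E F E' F' c =
          (E * F * E) * F * c * (F' * E') + E * (F * E') * F' * c * (F * E) := by
        unfold off
        noncomm_ring
      rw [hoff, t.o3, t.h.efe, mul_zero, zero_mul, zero_mul, zero_mul, add_zero] at h3
      exact h3
    have h2 : c * F * E = E' * F' * c * (F * E) := by
      have h3 : off E F E' F' c * F * E =
          E * F * c * F' * (E' * F) * E + E' * F' * c * (F * E * F) * E := by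
        unfold off
        noncomm_ring
      rw [hoff, t.o2, t.h.fef, mul_zero, zero_mul, zero_add] at h3
      rw [h3]
      noncomm_ring
    rw [h1, h2]
    exact hoff
  have hcE : c * E = 0 := AA_mul hc t.h.eA
  have hEc : E * c = 0 := AA_mul t.h.eA hc
  obtain ⟨k, hk1, hk2⟩ := hHalf K V ω hω hnd E F c (E * F) (F * E) (hsk _ t.h.eA.1)
    (hsk _ t.h.fA.1) (hsk _ hc.1) t.h.idem t.h.idem' t.h.orth t.h.orth' t.h.efe
    (by rw [← mul_assoc]; exact t.h.efe) (by rw [← mul_assoc]; exact t.h.fef) t.h.fef t.h.efe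
    t.h.fef
    (by
      have h3 : E * F * off E F E' F' c * (F * E) =
          E * F * E * F * c * F' * (E' * F) * E + E * (F * E') * F' * c * (F * E) * (F * E) := by
        unfold off
        noncomm_ring
      rw [hoff, t.o2, t.o3] at h3
      simpa using h3)
    (by rw [← mul_assoc, hcE, zero_mul])
    (by rw [mul_assoc, hEc, mul_zero])
    (by rw [e1]; exact h0)
  rw [e1] at hk1
  have h1 := hmin c hc hne
  unfold rk at h1 hrk
  rw [hk1] at h1
  rw [hrk] at hk2
  obtain ⟨m, hm⟩ := hs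
  omega

/-- (5) -/
theorem Two.dep [IsAlgClosed K] (t : Two 𝔥 p E F E' F')
    (hbr : ∀ X ∈ 𝔥, ∀ Y ∈ 𝔥, X * Y - Y * X ∈ 𝔥) (ω : V →ₗ[K] V →ₗ[K] K)
    (hω : ∀ v, ω v v = 0)
    (hnd : ∀ u, (∀ v, ω u v = 0) → u = 0) (hHalf : Half)
    (hsk : ∀ y ∈ 𝔥, ∀ a b, ω (y a) b + ω a (y b) = 0) {s : ℕ} (hs : Odd s) (hrk : rk E = s)
    (hmin : ∀ a ∈ AA 𝔥 p, a ≠ 0 → s ≤ rk a)
    (hext' : ∀ x ∈ 𝔥, ∃ c : K, E' * x * E' = c • E') {α a : Module.End K V} (hα : α ∈ AA 𝔥 p)
    (ha : a ∈ AA 𝔥 p) (hoff : off E F E' F' α = α) (hoff' : off E F E' F' a = a)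
    (hα0 : α ≠ 0) : ∃ l : K, a = l • α := by
  obtain ⟨A, hA⟩ := t.quad hbr hext' hα hoff
  obtain ⟨B, hB⟩ := t.quad2 hbr hext' hα ha hoff hoff'
  obtain ⟨C, hC⟩ := t.quad hbr hext' ha hoff'
  by_cases hA0 : A = 0
  · exfalso
    apply hα0
    exact t.zero ω hω hnd hHalf hsk hs hrk hmin hα hoff (by rw [hA, hA0, zero_smul])
  · obtain ⟨x, hx⟩ : ∃ x : K, A * x ^ 2 + B * x + C = 0 := by
      have hdeg : (Polynomial.C A * Polynomial.X ^ 2 + Polynomial.C B * Polynomial.X +
          Polynomial.C C : Polynomial K).degree ≠ 0 := by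
        rw [Polynomial.degree_quadratic hA0]
        decide
      obtain ⟨x, hx⟩ := IsAlgClosed.exists_root _ hdeg
      refine ⟨x, ?_⟩
      simpa [Polynomial.IsRoot] using hx
    have hmem : x • α + a ∈ AA 𝔥 p := (AA 𝔥 p).add_mem ((AA 𝔥 p).smul_mem _ hα) ha
    have ho : off E F E' F' (x • α + a) = x • α + a := by
      have h1 : off E F E' F' (x • α + a) = x • off E F E' F' α + off E F E' F' a := by
        unfold off
        simp only [mul_add, add_mul, mul_smul_comm, smul_mul_assoc, smul_add]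
        abel
      rw [h1, hoff, hoff']
    have hz : (x • α + a) * F * (x • α + a) = 0 := by
      have h1 : (x • α + a) * F * (x • α + a) =
          (x ^ 2) • (α * F * α) + x • (α * F * a + a * F * α) + a * F * a := by
        simp only [mul_add, add_mul, mul_smul_comm, smul_mul_assoc, smul_add, smul_smul]
        rw [pow_two]
        abel
      rw [h1, hA, hB, hC, smul_smul, smul_smul, ← add_smul, ← add_smul]
      rw [show x ^ 2 * A + x * B + C = 0 by linear_combination hx, zero_smul]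
    have h0 := t.zero ω hω hnd hHalf hsk hs hrk hmin hmem ho hz
    refine ⟨-x, ?_⟩
    rw [neg_smul]
    exact eq_neg_of_add_eq_zero_right h0

/-- (5), (6): spanning elements -/
theorem Two.span [IsAlgClosed K] (t : Two 𝔥 p E F E' F')
    (hbr : ∀ X ∈ 𝔥, ∀ Y ∈ 𝔥, X * Y - Y * X ∈ 𝔥) (ω : V →ₗ[K] V →ₗ[K] K)
    (hω : ∀ v, ω v v = 0)
    (hnd : ∀ u, (∀ v, ω u v = 0) → u = 0) (hHalf : Half)
    (hsk : ∀ y ∈ 𝔥, ∀ a b, ω (y a) b + ω a (y b) = 0) {s : ℕ} (hs : Odd s) (hrk : rk E = s)
    (hmin : ∀ a ∈ AA 𝔥 p, a ≠ 0 → s ≤ rk a)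
    (hext : ∀ x ∈ 𝔥, ∃ c : K, E * x * E = c • E)
    (hext' : ∀ x ∈ 𝔥, ∃ c : K, E' * x * E' = c • E') :
    ∃ α : Module.End K V, (∃ c : K, α * F' * α = c • E) ∧
      (∀ a ∈ AA 𝔥 p, ∃ l : K, E * F * a * (F' * E') = l • (E * F * α * (F' * E')) ∧
        E' * F' * a * (F * E) = l • (E' * F' * α * (F * E))) ∧
      (∀ b ∈ AA 𝔥 (1 - p), ∃ m : K, F' * E' * b * (E * F) = m • (F' * α * F)) := by
  obtain ⟨α, hα, hoffα, hsp⟩ : ∃ α ∈ AA 𝔥 p, off E F E' F' α = α ∧
      ∀ a ∈ AA 𝔥 p, off E F E' F' a = a → ∃ l : K, a = l • α := by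
    by_cases hex : ∃ α ∈ AA 𝔥 p, off E F E' F' α = α ∧ α ≠ 0
    · obtain ⟨α, h1, h2, h3⟩ := hex
      exact ⟨α, h1, h2, fun a ha hoa => t.dep hbr ω hω hnd hHalf hsk hs hrk hmin hext' h1 ha h2
        hoa h3⟩
    · refine ⟨0, Submodule.zero_mem _, by simp [off], ?_⟩
      intro a ha hoa
      refine ⟨0, ?_⟩
      rw [zero_smul]
      by_contra hne
      exact hex ⟨a, ha, hoa, hne⟩
  refine ⟨α, ?_, ?_, ?_⟩
  · exact t.symm.quad hbr hext hα (by rw [off_symm]; exact hoffα)
  · intro a ha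
    obtain ⟨l, hl⟩ := hsp _ (t.off_mem hbr ha) (t.off_off a)
    refine ⟨l, ?_, ?_⟩
    · rw [← t.P_off a, hl, mul_smul_comm, smul_mul_assoc]
    · have h1 := t.symm.P_off a
      rw [off_symm] at h1
      rw [← h1, hl, mul_smul_comm, smul_mul_assoc]
  · intro b hb
    set b' := off F E F' E' b with hb'
    have hb'm : b' ∈ AA 𝔥 (1 - p) := t.swap.off_mem hbr hb
    -- the corresponding element of degree one
    have ha1 : E * b' * E' + E' * b' * E ∈ AA 𝔥 p := by
      have h1 : E * b' * E' + E' * b' * E =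
          (E + E') * b' * (E + E') - E * b' * E - E' * b' * E' := by noncomm_ring
      rw [h1]
      exact Submodule.sub_mem _ (Submodule.sub_mem _
        (sand hbr ((AA 𝔥 p).add_mem t.h.eA t.h'.eA) hb'm.1)
        (sand hbr t.h.eA hb'm.1)) (sand hbr t.h'.eA hb'm.1)
    have ha2 : off E F E' F' (E * b' * E' + E' * b' * E) = E * b' * E' + E' * b' * E := by
      have h1 : off E F E' F' (E * b' * E' + E' * b' * E) =
          (E * F * E) * b' * (E' * F' * E') + E * (F * E') * b' * (E * F') * E' +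
          E' * (F' * E) * b' * (E' * F) * E + (E' * F' * E') * b' * (E * F * E) := by
        unfold off
        noncomm_ring
      rw [h1, t.o1, t.o2, t.o3, t.o4, t.h.efe, t.h'.efe]
      simp
    obtain ⟨m, hm⟩ := hsp _ ha1 ha2
    refine ⟨m, ?_⟩
    have h2 : F' * E' * b' * (E * F) = F' * (E * b' * E' + E' * b' * E) * F := by
      have h3 : F' * (E * b' * E' + E' * b' * E) * F =
          (F' * E) * b' * E' * F + F' * E' * b' * (E * F) := by noncomm_ring
      rw [h3, t.o4]
      simp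
    have h4 : F' * E' * b' * (E * F) = F' * E' * b * (E * F) := by
      have h5 := t.swap.symm.P_off b
      rw [off_symm] at h5
      exact h5
    rw [← h4, h2, hm, mul_smul_comm, smul_mul_assoc]

/-- evaluation -/
def ev (x : V) : Module.End K V →ₗ[K] V where
  toFun a := a x
  map_add' _ _ := rfl
  map_smul' _ _ := rfl

end

theorem main : Bound := by
  intro K _ _ _ V _ _ _ ω hω hnd hHalf 𝔥 p s n e f hpp hbr hsk h hp hq hs hmin hext hirr
  rcases Nat.eq_zero_or_pos n with hn | hn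
  · subst hn
    simp only [Finset.univ_eq_empty, Finset.sum_empty] at hp hq
    rw [← hp, sub_zero] at hq
    have hsub : Subsingleton V := ⟨fun x y => by
      have h1 : (1 : Module.End K V) x = (1 : Module.End K V) y := by rw [← hq]; rfl
      exact h1⟩
    rw [Module.finrank_zero_of_subsingleton]
  obtain ⟨o⟩ : Nonempty (Fin n) := ⟨⟨0, hn⟩⟩
  have hpr : ∀ i, Pr 𝔥 p (e i) (f i) := fun i => ⟨h.eA i, h.fA i, h.efe i, h.fef i⟩
  have htwo : ∀ j, j ≠ o → Two 𝔥 p (e o) (f o) (e j) (f j) := fun j hj =>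
    ⟨hpr o, hpr j, h.ef o j (Ne.symm hj), h.ef j o hj, h.fe o j (Ne.symm hj), h.fe j o hj⟩
  have hspan := fun j (hj : j ≠ o) => (htwo j hj).span hbr ω hω hnd hHalf hsk hs (h.rke o) hmin
    (hext o) (hext j)
  -- the vector
  have he0 : e o ≠ 0 := by
    intro h0
    have h1 := h.rke o
    rw [rk_eq_zero.2 h0] at h1
    obtain ⟨m, hm⟩ := hs
    omega
  obtain ⟨w0, hw0⟩ : ∃ v, e o v ≠ 0 := by
    by_contra hno
    push Not at hno
    exact he0 (LinearMap.ext hno)
  obtain ⟨w, hw, hwP⟩ : ∃ w : V, w ≠ 0 ∧ e o (f o w) = w := by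
    refine ⟨e o w0, hw0, ?_⟩
    have h1 := congrArg (fun z : Module.End K V => z w0) (h.efe o)
    simpa [Module.End.mul_apply] using h1
  have hfe : f o (e o (f o w)) = f o w := by rw [hwP]
  -- the scalars
  have hC : ∀ a ∈ AA 𝔥 p, ∀ b ∈ AA 𝔥 (1 - p), ∃ c : K,
      e o * f o * (a * b) * (e o * f o) = c • (e o * f o) := by
    intro a ha b hb
    have hterm : ∀ j, ∃ c : K, e o * f o * a * (f j * e j) * (b * (e o * f o)) =
        c • (e o * f o) := by
      intro j
      by_cases hj : j = o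
      · subst hj
        obtain ⟨c, hc⟩ := diag hbr (hpr j) (hext j) ha
        obtain ⟨c', hc'⟩ := diag' (hpr j) (hext j) hb
        refine ⟨c * c', ?_⟩
        have h1 : e j * f j * a * (f j * e j) * (b * (e j * f j)) =
            e j * f j * a * ((f j * e j * f j) * e j) * (b * (e j * f j)) := by rw [h.fef]
        have h2 : e j * f j * a * ((f j * e j * f j) * e j) * (b * (e j * f j)) =
            (e j * f j * a * (f j * e j)) * (f j * e j * b * (e j * f j)) := by noncomm_ring
        rw [h1, h2, hc, hc', smul_mul_smul_comm]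
      · obtain ⟨α, ⟨q, hq'⟩, h1, h2⟩ := hspan j hj
        obtain ⟨l, hl, -⟩ := h1 a ha
        obtain ⟨m, hm⟩ := h2 b hb
        refine ⟨l * m * q, ?_⟩
        have h3 : e o * f o * a * (f j * e j) * (b * (e o * f o)) =
            e o * f o * a * ((f j * e j * f j) * e j) * (b * (e o * f o)) := by rw [h.fef]
        have h4 : e o * f o * a * ((f j * e j * f j) * e j) * (b * (e o * f o)) =
            (e o * f o * a * (f j * e j)) * (f j * e j * b * (e o * f o)) := by noncomm_ring
        rw [h3, h4, hl, hm, smul_mul_smul_comm]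
        have h5 : e o * f o * α * (f j * e j) * (f j * α * f o) =
            e o * f o * α * (f j * e j * f j) * α * f o := by noncomm_ring
        have h6 : e o * f o * α * (f j) * α * f o = e o * f o * (α * f j * α) * f o := by
          noncomm_ring
        rw [h5, h.fef, h6, hq', mul_smul_comm, smul_mul_assoc, h.efe, smul_smul]
    choose c hc using hterm
    refine ⟨∑ j, c j, ?_⟩
    rw [Finset.sum_smul, ← Finset.sum_congr rfl (fun j _ => hc j), ← Finset.sum_mul,
      ← Finset.mul_sum, hq]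
    have h1 : e o * f o * (a * b) * (e o * f o) = e o * f o * a * (b * (e o * f o)) := by
      noncomm_ring
    rw [h1, mul_assoc (e o * f o) a (1 - p), AA_right ha]
  -- the adjoint relation
  have hD : ∀ a ∈ AA 𝔥 p, ∀ b ∈ AA 𝔥 (1 - p), ∀ c : K,
      e o * f o * (a * b) * (e o * f o) = c • (e o * f o) →
      e o * (b * a) * f o = c • (e o * f o) := by
    intro a ha b hb c hc
    have hadj : ∀ y ∈ 𝔥, ∀ u v, ω (y u) v = - ω u (y v) := fun y hy u v =>
      eq_neg_of_add_eq_zero_left (hsk y hy u v)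
    have h1 : f o * e o * (b * a) * (f o * e o) = c • (f o * e o) := by
      have h2 : ∀ u, (f o * e o * (b * a) * (f o * e o)) u - (c • (f o * e o)) u = 0 := by
        intro u
        apply hnd
        intro v
        have h3 := congrArg (fun z : Module.End K V => z v) hc
        simp only [Module.End.mul_apply, LinearMap.smul_apply] at h3
        simp only [map_sub, LinearMap.sub_apply, Module.End.mul_apply, LinearMap.smul_apply,
          map_smul]
        rw [hadj _ (h.fA o).1, hadj _ (h.eA o).1, hadj _ hb.1, hadj _ ha.1, hadj _ (h.fA o).1,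
          hadj _ (h.eA o).1, hadj _ (h.fA o).1, hadj _ (h.eA o).1, h3]
        simp
      exact LinearMap.ext fun u => sub_eq_zero.1 (h2 u)
    have h2 : e o * (b * a) * f o = (e o * f o * e o) * (b * a) * (f o * e o * f o) := by
      rw [h.efe, h.fef]
    have h3 : (e o * f o * e o) * (b * a) * (f o * e o * f o) =
        e o * (f o * e o * (b * a) * (f o * e o)) * f o := by noncomm_ring
    rw [h2, h3, h1, mul_smul_comm, smul_mul_assoc]
    congr 1
    have h4 : e o * (f o * e o) * f o = (e o * f o * e o) * f o := by noncomm_ring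
    rw [h4, h.efe]
  -- the subspace
  set U1 := (AA 𝔥 p).map (ev (f o w)) with hU1
  set U2 := (AA 𝔥 (1 - p)).map (ev w) with hU2
  have hstA : ∀ a ∈ AA 𝔥 p, ∀ u ∈ U1 ⊔ U2, a u ∈ U1 ⊔ U2 := by
    intro a ha u hu
    obtain ⟨_, ⟨a', ha', rfl⟩, _, ⟨b, hb, rfl⟩, rfl⟩ := Submodule.mem_sup.1 hu
    obtain ⟨c, hc⟩ := hC a ha b hb
    have hd := hD a ha b hb c hc
    have h1 : a * b * e o + e o * b * a ∈ AA 𝔥 p := by
      have h2 := hbr _ (hbr _ ha.1 _ hb.1) _ (h.eA o).1
      have h3 : (a * b - b * a) * e o - e o * (a * b - b * a) =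
          a * b * e o + e o * b * a - b * (a * e o) - (e o * a) * b := by noncomm_ring
      rw [h3, AA_mul ha (h.eA o), AA_mul (h.eA o) ha, mul_zero, zero_mul, sub_zero,
        sub_zero] at h2
      refine ⟨h2, ?_, ?_⟩
      · have h4 : p * (a * b * e o + e o * b * a) = (p * a) * b * e o + (p * e o) * b * a := by
          noncomm_ring
        rw [h4, ha.2.1, (h.eA o).2.1]
      · have h4 : (a * b * e o + e o * b * a) * p = a * b * (e o * p) + e o * b * (a * p) := by
          noncomm_ring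
        rw [h4, ha.2.2, (h.eA o).2.2, mul_zero, mul_zero, add_zero]
    have h2 : a (ev (f o w) a' + ev w b) =
        ev (f o w) ((a * b * e o + e o * b * a) - c • e o) := by
      have h3 : a (a' (f o w)) = 0 := by
        have h4 := congrArg (fun z : Module.End K V => z (f o w)) (AA_mul ha ha')
        simpa [Module.End.mul_apply] using h4
      have h5 : e o (b (a (f o w))) = c • w := by
        have h4 := congrArg (fun z : Module.End K V => z w) hd
        simp only [Module.End.mul_apply, LinearMap.smul_apply] at h4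
        rw [h4, hwP]
      show a (a' (f o w) + b w) = _
      have h6 : ev (f o w) ((a * b * e o + e o * b * a) - c • e o) =
          a (b (e o (f o w))) + e o (b (a (f o w))) - c • e o (f o w) := rfl
      rw [h6, h5, hwP, map_add, h3]
      abel
    rw [h2]
    exact Submodule.mem_sup_left ⟨_, Submodule.sub_mem _ h1 (Submodule.smul_mem _ _ (h.eA o)),
      rfl⟩
  have hstB : ∀ b ∈ AA 𝔥 (1 - p), ∀ u ∈ U1 ⊔ U2, b u ∈ U1 ⊔ U2 := by
    intro b hb u hu
    obtain ⟨_, ⟨a, ha, rfl⟩, _, ⟨b', hb', rfl⟩, rfl⟩ := Submodule.mem_sup.1 hu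
    obtain ⟨c, hc⟩ := hC a ha b hb
    have h1 : b * a * f o + f o * a * b ∈ AA 𝔥 (1 - p) := by
      have h2 := hbr _ (hbr _ hb.1 _ ha.1) _ (h.fA o).1
      have h3 : (b * a - a * b) * f o - f o * (b * a - a * b) =
          b * a * f o + f o * a * b - a * (b * f o) - (f o * b) * a := by noncomm_ring
      rw [h3, AA_mul hb (h.fA o), AA_mul (h.fA o) hb, mul_zero, zero_mul, sub_zero,
        sub_zero] at h2
      refine ⟨h2, ?_, ?_⟩
      · have h4 : (1 - p) * (b * a * f o + f o * a * b) =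
            ((1 - p) * b) * a * f o + ((1 - p) * f o) * a * b := by noncomm_ring
        rw [h4, hb.2.1, (h.fA o).2.1]
      · have h4 : (b * a * f o + f o * a * b) * (1 - p) =
            b * a * (f o * (1 - p)) + f o * a * (b * (1 - p)) := by noncomm_ring
        rw [h4, hb.2.2, (h.fA o).2.2, mul_zero, mul_zero, add_zero]
    have h2 : b (ev (f o w) a + ev w b') =
        ev w ((b * a * f o + f o * a * b) - c • f o) := by
      have h3 : b (b' w) = 0 := by
        have h4 := congrArg (fun z : Module.End K V => z w) (AA_mul hb hb')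
        simpa [Module.End.mul_apply] using h4
      have h5 : f o (a (b w)) = c • f o w := by
        have h4 := congrArg (fun z : Module.End K V => f o (z w)) hc
        simp only [Module.End.mul_apply, LinearMap.smul_apply, map_smul] at h4
        rw [hwP] at h4
        have h6 : f o (e o (f o (a (b w)))) = f o (a (b w)) := by
          have h7 := congrArg (fun z : Module.End K V => z (a (b w))) (h.fef o)
          simpa [Module.End.mul_apply] using h7
        rw [h6] at h4
        exact h4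
      show b (a (f o w) + b' w) = _
      have h6 : ev w ((b * a * f o + f o * a * b) - c • f o) =
          b (a (f o w)) + f o (a (b w)) - c • f o w := rfl
      rw [h6, h5, map_add, h3]
      abel
    rw [h2]
    exact Submodule.mem_sup_right ⟨_, Submodule.sub_mem _ h1 (Submodule.smul_mem _ _ (h.fA o)),
      rfl⟩
  have hU : U1 ⊔ U2 = ⊤ := by
    rcases hirr (U1 ⊔ U2) hstA hstB with h0 | h0
    · exfalso
      have h1 : w ∈ U1 ⊔ U2 := Submodule.mem_sup_left ⟨e o, h.eA o, hwP⟩
      rw [h0, Submodule.mem_bot] at h1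
      exact hw h1
    · exact h0
  -- dimensions
  have hv : ∀ j, ∃ v : V, ∀ a ∈ AA 𝔥 p, ∃ l : K,
      (e j * f j * a * (f o * e o)) (f o w) = l • v := by
    intro j
    by_cases hj : j = o
    · subst hj
      refine ⟨e j (f j w), fun a ha => ?_⟩
      obtain ⟨c, hc⟩ := diag hbr (hpr j) (hext j) ha
      exact ⟨c, by rw [hc]; rfl⟩
    · obtain ⟨α, -, h1, -⟩ := hspan j hj
      refine ⟨(e j * f j * α * (f o * e o)) (f o w), fun a ha => ?_⟩
      obtain ⟨l, -, hl⟩ := h1 a ha
      exact ⟨l, by rw [hl]; rfl⟩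
  have hu : ∀ j, ∃ v : V, ∀ b ∈ AA 𝔥 (1 - p), ∃ l : K,
      (f j * e j * b * (e o * f o)) w = l • v := by
    intro j
    by_cases hj : j = o
    · subst hj
      refine ⟨f j w, fun b hb => ?_⟩
      obtain ⟨c, hc⟩ := diag' (hpr j) (hext j) hb
      exact ⟨c, by rw [hc]; rfl⟩
    · obtain ⟨α, -, -, h1⟩ := hspan j hj
      refine ⟨(f j * α * f o) w, fun b hb => ?_⟩
      obtain ⟨l, hl⟩ := h1 b hb
      exact ⟨l, by rw [hl]; rfl⟩
  choose v hv using hv
  choose u hu using hu
  have d1 : finrank K U1 ≤ n := by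
    have h1 : U1 ≤ Submodule.span K (Set.range v) := by
      rintro _ ⟨a, ha, rfl⟩
      have h2 : ev (f o w) a = ∑ j, (e j * f j * a * (f o * e o)) (f o w) := by
        have h3 : ∑ j, (e j * f j * a * (f o * e o)) (f o w) =
            (∑ j, e j * f j * a * (f o * e o)) (f o w) := by
          rw [LinearMap.sum_apply]
        rw [h3, ← Finset.sum_mul, ← Finset.sum_mul, hp, ha.2.1]
        show a (f o w) = a (f o (e o (f o w)))
        rw [hfe]
      rw [h2]
      refine Submodule.sum_mem _ fun j _ => ?_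
      obtain ⟨l, hl⟩ := hv j a ha
      rw [hl]
      exact Submodule.smul_mem _ _ (Submodule.subset_span ⟨j, rfl⟩)
    calc finrank K U1 ≤ finrank K (Submodule.span K (Set.range v)) := Submodule.finrank_mono h1
      _ ≤ Fintype.card (Fin n) := finrank_range_le_card v
      _ = n := Fintype.card_fin n
  have d2 : finrank K U2 ≤ n := by
    have h1 : U2 ≤ Submodule.span K (Set.range u) := by
      rintro _ ⟨b, hb, rfl⟩
      have h2 : ev w b = ∑ j, (f j * e j * b * (e o * f o)) w := by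
        have h3 : ∑ j, (f j * e j * b * (e o * f o)) w =
            (∑ j, f j * e j * b * (e o * f o)) w := by
          rw [LinearMap.sum_apply]
        rw [h3, ← Finset.sum_mul, ← Finset.sum_mul, hq, hb.2.1]
        show b w = b (e o (f o w))
        rw [hwP]
      rw [h2]
      refine Submodule.sum_mem _ fun j _ => ?_
      obtain ⟨l, hl⟩ := hu j b hb
      rw [hl]
      exact Submodule.smul_mem _ _ (Submodule.subset_span ⟨j, rfl⟩)
    calc finrank K U2 ≤ finrank K (Submodule.span K (Set.range u)) := Submodule.finrank_mono h1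
      _ ≤ Fintype.card (Fin n) := finrank_range_le_card u
      _ = n := Fintype.card_fin n
  have h1 : finrank K V = finrank K (U1 ⊔ U2 : Submodule K V) := by
    rw [hU, finrank_top]
  have h2 := Submodule.finrank_add_le_finrank_add_finrank U1 U2
  omega

end Pool.Agent.W72.OT.Bound
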